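import Mathlib

/-!
# A matroid whose Whitney numbers of the second kind are not log-concave

For a surjection `c : α → ι` from a finite type, a set is called independent if it contains at
most one fibre of `c`.  This is the cycle matroid of the graph that consists of two vertices joined
by internally disjoint paths, one path for every element of `ι`, the path for `i` having as many
edges as the fibre over `i` has elements.
-/

set_option autoImplicit false

namespace Pool.Agent.U296.Theta

open Set

section General

variable {α ι : Type} (c : α → ι)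

/-- `I` contains the whole fibre of `c` over `i`. -/
def Full (I : Set α) (i : ι) : Prop := ∀ x, c x = i → x ∈ I

/-- `I` contains at most one fibre of `c`. -/
def Ind (I : Set α) : Prop := ∀ i j, Full c I i → Full c I j → i = j

variable {c}

lemma Full.mono {I J : Set α} {i : ι} (h : Full c I i) (hIJ : I ⊆ J) : Full c J i :=
  fun x hx => hIJ (h x hx)

lemma Ind.subset {I J : Set α} (h : Ind c J) (hIJ : I ⊆ J) : Ind c I :=
  fun i j hi hj => h i j (hi.mono hIJ) (hj.mono hIJ)

lemma full_insert_ne {I : Set α} {e : α} {i : ι} (h : Full c (insert e I) i) (hne : c e ≠ i) :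
    Full c I i := by
  intro x hx
  rcases h x hx with rfl | h'
  · exact absurd hx hne
  · exact h'

lemma aug_aux {I : Set α} (hI : Ind c I) {e : α} (h : ¬ Ind c (insert e I)) :
    Full c (insert e I) (c e) ∧ ∃ j, j ≠ c e ∧ Full c I j := by
  unfold Ind at h
  push Not at h
  obtain ⟨i, j, hi, hj, hij⟩ := h
  by_cases h1 : c e = i
  · subst h1
    exact ⟨hi, j, fun h => hij h.symm, full_insert_ne hj hij⟩
  · have hi' := full_insert_ne hi h1
    by_cases h2 : c e = j
    · subst h2
      exact ⟨hj, i, fun h => h1 h.symm, hi'⟩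
    · exact absurd (hI i j hi' (full_insert_ne hj h2)) hij

lemma aug [Finite α] {I J : Set α} (hI : Ind c I) (hJ : Ind c J) (hlt : I.ncard < J.ncard) :
    ∃ e ∈ J, e ∉ I ∧ Ind c (insert e I) := by
  classical
  by_contra hcon
  push Not at hcon
  have key : ∀ e ∈ J \ I, Full c (insert e I) (c e) ∧ ∃ j, j ≠ c e ∧ Full c I j :=
    fun e he => aug_aux hI (hcon e he.1 he.2)
  have hne : (J \ I).Nonempty := by
    rw [Set.nonempty_iff_ne_empty]
    intro h
    rw [Set.sdiff_eq_empty] at h
    exact absurd (Set.ncard_le_ncard h) (by omega)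
  obtain ⟨e0, he0⟩ := hne
  obtain ⟨-, j0, -, hj0⟩ := key e0 he0
  have hj0' : ∀ e ∈ J \ I, j0 ≠ c e := by
    intro e he
    obtain ⟨-, j, hj, hj'⟩ := key e he
    rw [hI j0 j hj0 hj']
    exact hj
  -- the missing elements
  have hex : ∀ e ∈ J \ I, ∃ y, y ∈ I \ J ∧
      ((Full c J (c e) ∧ c y = j0) ∨ (¬ Full c J (c e) ∧ c y = c e)) := by
    intro e he
    by_cases hf : Full c J (c e)
    · have : ¬ Full c J j0 := fun h => hj0' e he (hJ _ _ h hf)
      unfold Full at this
      push Not at this
      obtain ⟨y, hy, hyJ⟩ := this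
      exact ⟨y, ⟨hj0 y hy, hyJ⟩, Or.inl ⟨hf, hy⟩⟩
    · have h' := hf
      unfold Full at h'
      push Not at h'
      obtain ⟨y, hy, hyJ⟩ := h'
      refine ⟨y, ⟨?_, hyJ⟩, Or.inr ⟨hf, hy⟩⟩
      rcases (key e he).1 y hy with rfl | h
      · exact absurd he.1 hyJ
      · exact h
  choose! f hf1 hf2 using hex
  have hinj : InjOn f (J \ I) := by
    intro e he e' he' hee
    have same : c e = c e' → e = e' := by
      intro h
      rcases (key e' he').1 e h with h | h
      · exact h
      · exact absurd h he.2
    rcases hf2 e he with ⟨a1, a2⟩ | ⟨a1, a2⟩ <;> rcases hf2 e' he' with ⟨b1, b2⟩ | ⟨b1, b2⟩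
    · exact same (hJ _ _ a1 b1)
    · rw [hee, b2] at a2
      exact absurd a2.symm (hj0' e' he')
    · rw [hee, b2] at a2
      exact absurd a2 (hj0' e he)
    · rw [hee, b2] at a2
      exact same a2.symm
  have h1 : (J \ I).ncard ≤ (I \ J).ncard :=
    Set.ncard_le_ncard_of_injOn f (fun e he => hf1 e he) hinj (Set.toFinite _)
  have h2 := Set.ncard_inter_add_ncard_sdiff_eq_ncard I J
  have h3 := Set.ncard_inter_add_ncard_sdiff_eq_ncard J I
  rw [Set.inter_comm] at h3
  omega

variable (c)

/-- The matroid of the sets that contain at most one fibre of `c`. -/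
noncomputable def mat [Finite α] (hc : Function.Surjective c) : Matroid α :=
  (IndepMatroid.ofFinite (E := (Set.univ : Set α)) Set.finite_univ (Ind c)
    (by
      intro i j hi _
      obtain ⟨x, hx⟩ := hc i
      exact absurd (hi x hx) (Set.notMem_empty x))
    (fun I J hJ hIJ => hJ.subset hIJ)
    (fun I J hI hJ hlt => aug hI hJ hlt)
    (fun I _ => Set.subset_univ I)).matroid

variable {c}

lemma mat_indep [Finite α] (hc : Function.Surjective c) (I : Set α) :
    (mat c hc).Indep I ↔ Ind c I := Iff.rfl

lemma mat_E [Finite α] (hc : Function.Surjective c) : (mat c hc).E = Set.univ := rfl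

lemma mat_finite [Finite α] (hc : Function.Surjective c) : (mat c hc).Finite :=
  ⟨by rw [mat_E]; exact Set.finite_univ⟩

/-- An independent set to which every outside element can be added is a flat. -/
lemma isFlat_of_ind [Finite α] (hc : Function.Surjective c) {F : Set α} (hF : Ind c F)
    (h : ∀ x, x ∉ F → Ind c (insert x F)) : (mat c hc).IsFlat F := by
  rw [Matroid.isFlat_iff_closure_eq]
  have hF' : (mat c hc).Indep F := hF
  refine Set.Subset.antisymm ?_ ((mat c hc).subset_closure F (by rw [mat_E]; exact subset_univ _))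
  intro x hx
  by_contra hxF
  have := (hF'.notMem_closure_iff_of_notMem hxF (by rw [mat_E]; exact mem_univ _)).2 (h x hxF)
  exact this hx

/-- If `F` is an independent flat then every outside element can be added. -/
lemma ind_insert_of_isFlat [Finite α] (hc : Function.Surjective c) {F : Set α} (hF : Ind c F)
    (hfl : (mat c hc).IsFlat F) {x : α} (hx : x ∉ F) : Ind c (insert x F) := by
  have hF' : (mat c hc).Indep F := hF
  have hx' : x ∉ (mat c hc).closure F := by rwa [hfl.closure]
  exact (hF'.notMem_closure_iff_of_notMem hx (by rw [mat_E]; exact mem_univ _)).1 hx'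

lemma eRk_of_ind [Finite α] (hc : Function.Surjective c) {F : Set α} (hF : Ind c F) :
    (mat c hc).eRk F = ((F.ncard : ℕ) : ℕ∞) := by
  have hF' : (mat c hc).Indep F := hF
  rw [hF'.eRk_eq_encard, Set.Finite.cast_ncard_eq (Set.toFinite F)]

end General

section Three

variable {m : ℕ}

/-- The ground set: one extra element and three blocks of `2 * m` elements each. -/
abbrev V (m : ℕ) : Type := Option (Fin 3 × (Fin m × Bool))

/-- The map whose fibres are the three blocks and the extra element. -/
def cls (m : ℕ) : V m → Option (Fin 3) := Option.map Prod.fst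

@[simp] lemma cls_none : cls m none = none := rfl
@[simp] lemma cls_some (p : Fin 3 × (Fin m × Bool)) : cls m (some p) = some p.1 := rfl

lemma cls_surj (hm : 0 < m) : Function.Surjective (cls m) := by
  intro i
  rcases i with _ | i
  · exact ⟨none, rfl⟩
  · exact ⟨some (i, (⟨0, hm⟩, true)), rfl⟩

/-- If every block misses two elements of `F`, then every element can be added to `F`. -/
lemma ind_insert_of_two {F : Set (V m)} (u v : Fin 3 → Fin m × Bool) (huv : ∀ i, u i ≠ v i)
    (hu : ∀ i, some (i, u i) ∉ F) (hv : ∀ i, some (i, v i) ∉ F) (x : V m) :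
    Ind (cls m) (insert x F) := by
  have h : ∀ j, Full (cls m) (insert x F) j → j = none := by
    intro j hj
    rcases j with _ | i
    · rfl
    · exfalso
      have h1 := hj (some (i, u i)) rfl
      have h2 := hj (some (i, v i)) rfl
      rcases h1 with h1 | h1
      · rcases h2 with h2 | h2
        · rw [← h2] at h1
          have h3 := Option.some.inj h1
          exact huv i (Prod.mk.inj h3).2
        · exact hv i h2
      · exact hu i h1
  intro i j hi hj
  rw [h i hi, h j hj]

/-- If no fibre is contained in `F`, then every element can be added to `F`. -/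
lemma ind_insert_of_none {F : Set (V m)} (h : ∀ i, ¬ Full (cls m) F i) (x : V m) :
    Ind (cls m) (insert x F) := by
  have h' : ∀ j, Full (cls m) (insert x F) j → cls m x = j := by
    intro j hj
    by_contra hne
    exact h j (full_insert_ne hj hne)
  intro i j hi hj
  rw [← h' i hi, ← h' j hj]

lemma card_V : Nat.card (V m) = 6 * m + 1 := by
  simp only [Nat.card_eq_fintype_card, Fintype.card_option, Fintype.card_prod, Fintype.card_fin,
    Fintype.card_bool]
  ring

/-! ### Flats of corank one -/

/-- The complement of a flat of corank one. -/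
def S1 (x : Fin 3 → Fin m) : Finset (V m) :=
  insert none (Finset.univ.image fun i => some (i, (x i, true)))

lemma S1_card (x : Fin 3 → Fin m) : (S1 x).card = 4 := by
  unfold S1
  rw [Finset.card_insert_of_notMem (by simp), Finset.card_image_of_injective]
  · simp
  · intro i j hij
    exact (Prod.mk.inj (Option.some.inj hij)).1

lemma mem_S1 (x : Fin 3 → Fin m) (i : Fin 3) (y : Fin m) :
    (some (i, (y, true)) : V m) ∈ S1 x ↔ y = x i := by
  unfold S1
  simp only [Finset.mem_insert, reduceCtorEq, Finset.mem_image, Finset.mem_univ, true_and,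
    Option.some.injEq, Prod.mk.injEq, and_true, false_or]
  constructor
  · rintro ⟨j, rfl, h⟩
    exact h.symm
  · rintro rfl
    exact ⟨i, rfl, rfl⟩

lemma S1_inj : Function.Injective fun x : Fin 3 → Fin m => ((S1 x : Set (V m))ᶜ) := by
  intro x y h
  have h' : S1 x = S1 y := by
    have := compl_injective h
    exact_mod_cast this
  funext i
  have := (mem_S1 x i (x i)).2 rfl
  rw [h', mem_S1] at this
  exact this

lemma not_full_S1 (x : Fin 3 → Fin m) (i : Option (Fin 3)) :
    ¬ Full (cls m) ((S1 x : Set (V m))ᶜ) i := by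
  intro h
  rcases i with _ | i
  · exact h none rfl (by simp [S1])
  · exact h (some (i, (x i, true))) rfl (by simp [mem_S1])

lemma ncard_S1 (x : Fin 3 → Fin m) : ((S1 x : Set (V m))ᶜ).ncard = 6 * m - 3 := by
  rw [Set.ncard_compl, card_V, Set.ncard_coe_finset, S1_card]
  omega

/-! ### Flats of corank three -/

/-- The complement of a flat of corank three. -/
def S3 (x : Fin 3 → Fin m × Fin m) : Finset (V m) :=
  Finset.univ.image fun q : Fin 3 × Bool =>
    some (q.1, (if q.2 then (x q.1).1 else (x q.1).2, q.2))

lemma S3_card (x : Fin 3 → Fin m × Fin m) : (S3 x).card = 6 := by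
  unfold S3
  rw [Finset.card_image_of_injective]
  · simp
  · rintro ⟨i, b⟩ ⟨j, b'⟩ hij
    have h := Prod.mk.inj (Option.some.inj hij)
    have h1 : i = j := h.1
    have h2 : b = b' := (Prod.mk.inj h.2).2
    rw [h1, h2]

lemma mem_S3_true (x : Fin 3 → Fin m × Fin m) (i : Fin 3) (y : Fin m) :
    (some (i, (y, true)) : V m) ∈ S3 x ↔ y = (x i).1 := by
  unfold S3
  simp only [Finset.mem_image, Finset.mem_univ, true_and, Option.some.injEq, Prod.mk.injEq]
  constructor
  · rintro ⟨⟨j, b⟩, h1, h2, h3⟩
    simp only at h1 h2 h3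
    subst h1 h3
    simpa using h2.symm
  · rintro rfl
    exact ⟨(i, true), rfl, by simp, rfl⟩

lemma mem_S3_false (x : Fin 3 → Fin m × Fin m) (i : Fin 3) (y : Fin m) :
    (some (i, (y, false)) : V m) ∈ S3 x ↔ y = (x i).2 := by
  unfold S3
  simp only [Finset.mem_image, Finset.mem_univ, true_and, Option.some.injEq, Prod.mk.injEq]
  constructor
  · rintro ⟨⟨j, b⟩, h1, h2, h3⟩
    simp only at h1 h2 h3
    subst h1 h3
    simpa using h2.symm
  · rintro rfl
    exact ⟨(i, false), rfl, by simp, rfl⟩

lemma S3_inj : Function.Injective fun x : Fin 3 → Fin m × Fin m => ((S3 x : Set (V m))ᶜ) := by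
  intro x y h
  have h' : S3 x = S3 y := by
    have := compl_injective h
    exact_mod_cast this
  funext i
  have h1 := (mem_S3_true x i (x i).1).2 rfl
  have h2 := (mem_S3_false x i (x i).2).2 rfl
  rw [h', mem_S3_true] at h1
  rw [h', mem_S3_false] at h2
  exact Prod.ext h1 h2

lemma ind_insert_S3 (x : Fin 3 → Fin m × Fin m) (z : V m) :
    Ind (cls m) (insert z ((S3 x : Set (V m))ᶜ)) :=
  ind_insert_of_two (fun i => ((x i).1, true)) (fun i => ((x i).2, false))
    (fun i h => by simpa using (Prod.mk.inj h).2)
    (fun i => by simp [mem_S3_true]) (fun i => by simp [mem_S3_false]) z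

lemma ncard_S3 (x : Fin 3 → Fin m × Fin m) : ((S3 x : Set (V m))ᶜ).ncard = 6 * m - 5 := by
  rw [Set.ncard_compl, card_V, Set.ncard_coe_finset, S3_card]
  omega

end Three

end Pool.Agent.U296.Theta
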