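import Mathlib
import Pool.Agent.U296.Theta

/-!
# Counting flats of corank one, two and three
-/

set_option autoImplicit false

namespace Pool.Agent.U296.Theta

open Set

section Count

variable {m : ℕ}

/-- The set of flats of rank `r`. -/
def flatsOf {α : Type} (M : Matroid α) (r : ℕ) : Set (Set α) :=
  {F : Set α | M.IsFlat F ∧ M.eRk F = ((r : ℕ) : ℕ∞)}

lemma corank_one (hm : 0 < m) :
    m ^ 3 ≤ (flatsOf (mat (cls m) (cls_surj hm)) (6 * m - 3)).ncard := by
  have hsub : Set.range (fun x : Fin 3 → Fin m => ((S1 x : Set (V m))ᶜ)) ⊆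
      flatsOf (mat (cls m) (cls_surj hm)) (6 * m - 3) := by
    rintro _ ⟨x, rfl⟩
    have hind : ∀ z, Ind (cls m) (insert z ((S1 x : Set (V m))ᶜ)) :=
      ind_insert_of_none (not_full_S1 x)
    have h0 : Ind (cls m) ((S1 x : Set (V m))ᶜ) := (hind none).subset (Set.subset_insert _ _)
    refine ⟨isFlat_of_ind _ h0 (fun z _ => hind z), ?_⟩
    rw [eRk_of_ind _ h0, ncard_S1]
  have h := Set.ncard_le_ncard hsub (Set.toFinite _)
  have h2 : (Set.range (fun x : Fin 3 → Fin m => ((S1 x : Set (V m))ᶜ))).ncard = m ^ 3 := by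
    rw [← Set.image_univ, Set.ncard_image_of_injective _ S1_inj, Set.ncard_univ]
    simp
  omega

lemma corank_three (hm : 0 < m) :
    m ^ 6 ≤ (flatsOf (mat (cls m) (cls_surj hm)) (6 * m - 5)).ncard := by
  have hsub : Set.range (fun x : Fin 3 → Fin m × Fin m => ((S3 x : Set (V m))ᶜ)) ⊆
      flatsOf (mat (cls m) (cls_surj hm)) (6 * m - 5) := by
    rintro _ ⟨x, rfl⟩
    have hind := ind_insert_S3 x
    have h0 : Ind (cls m) ((S3 x : Set (V m))ᶜ) := (hind none).subset (Set.subset_insert _ _)
    refine ⟨isFlat_of_ind _ h0 (fun z _ => hind z), ?_⟩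
    rw [eRk_of_ind _ h0, ncard_S3]
  have h := Set.ncard_le_ncard hsub (Set.toFinite _)
  have h2 : (Set.range (fun x : Fin 3 → Fin m × Fin m => ((S3 x : Set (V m))ᶜ))).ncard
      = m ^ 6 := by
    rw [← Set.image_univ, Set.ncard_image_of_injective _ S3_inj, Set.ncard_univ]
    simp
    ring
  omega

/-- A block is not contained in a set of at most two elements. -/
lemma not_full_small (hm : 2 ≤ m) {F : Set (V m)} (hF : F.ncard ≤ 2) (i : Fin 3) :
    ¬ Full (cls m) F (some i) := by
  intro h
  have h1 : Set.range (fun b : Fin m × Bool => (some (i, b) : V m)) ⊆ F := by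
    rintro _ ⟨b, rfl⟩
    exact h _ rfl
  have h2 := Set.ncard_le_ncard h1 (Set.toFinite _)
  have hinj : Function.Injective (fun b : Fin m × Bool => (some (i, b) : V m)) := by
    intro b b' hb
    exact (Prod.mk.inj (Option.some.inj hb)).2
  rw [← Set.image_univ, Set.ncard_image_of_injective _ hinj, Set.ncard_univ] at h2
  simp at h2
  omega

lemma ind_small (hm : 2 ≤ m) {F : Set (V m)} (hF : F.ncard ≤ 2) : Ind (cls m) F := by
  have h : ∀ j, Full (cls m) F j → j = none := by
    intro j hj
    rcases j with _ | i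
    · rfl
    · exact absurd hj (not_full_small hm hF i)
  intro i j hi hj
  rw [h i hi, h j hj]

lemma points (hm : 2 ≤ m) (hm0 : 0 < m) :
    6 * m ≤ (flatsOf (mat (cls m) (cls_surj hm0)) 1).ncard := by
  have hsub : Set.range (fun v : V m => ({v} : Set (V m))) ⊆
      flatsOf (mat (cls m) (cls_surj hm0)) 1 := by
    rintro _ ⟨v, rfl⟩
    have h0 : Ind (cls m) ({v} : Set (V m)) := ind_small hm (by simp)
    refine ⟨isFlat_of_ind _ h0 (fun z _ => ind_small hm ?_), ?_⟩
    · refine (Set.ncard_insert_le _ _).trans ?_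
      simp
    · rw [eRk_of_ind _ h0]
      simp
  have h := Set.ncard_le_ncard hsub (Set.toFinite _)
  have h2 : (Set.range (fun v : V m => ({v} : Set (V m)))).ncard = 6 * m + 1 := by
    rw [← Set.image_univ, Set.ncard_image_of_injective _ Set.singleton_injective,
      Set.ncard_univ, card_V]
  omega

/-- The number of subsets with at most four elements. -/
lemma card_le_four {P : Type} [Fintype P] [DecidableEq P] (hP : 0 < Fintype.card P) :
    ((Finset.univ : Finset (Finset P)).filter fun Y => Y.card ≤ 4).card ≤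
      5 * Fintype.card P ^ 4 := by
  have hsub : ((Finset.univ : Finset (Finset P)).filter fun Y => Y.card ≤ 4) ⊆
      (Finset.range 5).biUnion fun i => Finset.powersetCard i (Finset.univ : Finset P) := by
    intro Y hY
    rw [Finset.mem_filter] at hY
    rw [Finset.mem_biUnion]
    exact ⟨Y.card, Finset.mem_range.2 (by omega),
      Finset.mem_powersetCard.2 ⟨Finset.subset_univ _, rfl⟩⟩
  refine (Finset.card_le_card hsub).trans (Finset.card_biUnion_le.trans ?_)
  have hle : ∀ i ∈ Finset.range 5,
      (Finset.powersetCard i (Finset.univ : Finset P)).card ≤ Fintype.card P ^ 4 := by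
    intro i hi
    rw [Finset.card_powersetCard, Finset.card_univ]
    refine (Nat.choose_le_pow _ _).trans ?_
    exact Nat.pow_le_pow_right hP (by have := Finset.mem_range.1 hi; omega)
  refine (Finset.sum_le_card_nsmul _ _ _ hle).trans ?_
  simp

open Classical in
/-- In a flat of corank two, at most four elements of the blocks are missing. -/
lemma missing_le_four (hm : 2 ≤ m) (hm0 : 0 < m) {F : Set (V m)}
    (hF : F ∈ flatsOf (mat (cls m) (cls_surj hm0)) (6 * m - 4)) :
    ((Finset.univ : Finset (Fin 3 × (Fin m × Bool))).filter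
      fun p => (some p : V m) ∉ F).card ≤ 4 := by
  obtain ⟨hfl, hrk⟩ := hF
  by_contra hcon
  push Not at hcon
  set Y := (Finset.univ : Finset (Fin 3 × (Fin m × Bool))).filter
      fun p => (some p : V m) ∉ F with hY
  -- cardinalities
  have hYF : ((Y.image (fun p => (some p : V m)) : Finset (V m)) : Set (V m)) ⊆ Fᶜ := by
    intro v hv
    simp only [Finset.coe_image, Set.mem_image, Finset.mem_coe, hY, Finset.mem_filter,
      Finset.mem_univ, true_and] at hv
    obtain ⟨p, hp, rfl⟩ := hv
    exact hp
  have hYc : (Y.image (fun p => (some p : V m))).card = Y.card :=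
    Finset.card_image_of_injective _ (Option.some_injective _)
  have h1 : Y.card ≤ (Fᶜ).ncard := by
    rw [← hYc, ← Set.ncard_coe_finset]
    exact Set.ncard_le_ncard hYF (Set.toFinite _)
  have h2 : F.ncard + (Fᶜ).ncard = 6 * m + 1 := by
    rw [Set.ncard_add_ncard_compl, card_V]
  have h3 : ((6 * m - 4 : ℕ) : ℕ∞) ≤ ((F.ncard : ℕ) : ℕ∞) := by
    rw [← hrk, Set.Finite.cast_ncard_eq (Set.toFinite F)]
    exact Matroid.eRk_le_encard _ _
  have h3' : 6 * m - 4 ≤ F.ncard := by exact_mod_cast h3
  have hcF : F.ncard = 6 * m - 4 := by omega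
  have hcY : Y.card = 5 := by omega
  -- `F` is independent
  have hind : Ind (cls m) F := by
    have : (mat (cls m) (cls_surj hm0)).Indep F := by
      obtain ⟨I, hI⟩ := (mat (cls m) (cls_surj hm0)).exists_isBasis F
        (by rw [mat_E]; exact subset_univ _)
      have hIe := hI.eRk_eq_encard
      rw [hrk] at hIe
      have hIF : I = F := by
        refine Set.Finite.eq_of_subset_of_encard_le (Set.toFinite I) hI.subset ?_
        rw [← hIe, ← Set.Finite.cast_ncard_eq (Set.toFinite F), hcF]
      rw [← hIF]
      exact hI.indep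
    exact this
  -- the extra element lies in `F`
  have hnone : (none : V m) ∈ F := by
    by_contra hn
    have hsub : ((insert none (Y.image (fun p => (some p : V m))) : Finset (V m)) : Set (V m))
        ⊆ Fᶜ := by
      rw [Finset.coe_insert]
      exact Set.insert_subset hn hYF
    have h4 := Set.ncard_le_ncard hsub (Set.toFinite _)
    rw [Set.ncard_coe_finset, Finset.card_insert_of_notMem (by simp), hYc] at h4
    omega
  have hfull : Full (cls m) F none := by
    intro v hv
    rcases v with _ | p
    · exact hnone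
    · simp at hv
  -- every block misses at least two elements
  have htwo : ∀ i : Fin 3, ∃ u v : Fin m × Bool, u ≠ v ∧ (i, u) ∈ Y ∧ (i, v) ∈ Y := by
    intro i
    have h5 : ¬ Full (cls m) F (some i) := by
      intro h
      exact absurd (hind _ _ h hfull) (by simp)
    unfold Full at h5
    push Not at h5
    obtain ⟨x, hx, hxF⟩ := h5
    rcases x with _ | ⟨i', u⟩
    · simp at hx
    · simp only [cls_some, Option.some.injEq] at hx
      subst hx
      have h6 : ¬ Full (cls m) (insert (some (i', u)) F) (some i') := by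
        intro h
        have h7 := ind_insert_of_isFlat _ hind hfl hxF
        exact absurd (h7 _ _ h (hfull.mono (Set.subset_insert _ _))) (by simp)
      unfold Full at h6
      push Not at h6
      obtain ⟨y, hy, hyF⟩ := h6
      rcases y with _ | ⟨j, v⟩
      · simp at hy
      · simp only [cls_some, Option.some.injEq] at hy
        subst hy
        rw [Set.mem_insert_iff, not_or] at hyF
        refine ⟨u, v, ?_, ?_, ?_⟩
        · rintro rfl
          exact hyF.1 rfl
        · rw [hY, Finset.mem_filter]
          exact ⟨Finset.mem_univ _, hxF⟩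
        · rw [hY, Finset.mem_filter]
          exact ⟨Finset.mem_univ _, hyF.2⟩
  choose u v huv hu hv using htwo
  have hinj : Function.Injective (fun q : Fin 3 × Bool =>
      ((q.1, if q.2 then u q.1 else v q.1) : Fin 3 × (Fin m × Bool))) := by
    rintro ⟨i, b⟩ ⟨j, b'⟩ h
    simp only [Prod.mk.injEq] at h
    obtain ⟨rfl, h⟩ := h
    rcases b with _ | _ <;> rcases b' with _ | _
    · rfl
    · simp only [Bool.false_eq_true, if_false, if_true] at h
      exact absurd h.symm (huv i)
    · simp only [Bool.false_eq_true, if_false, if_true] at h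
      exact absurd h (huv i)
    · rfl
  have hsub : (Finset.univ.image (fun q : Fin 3 × Bool =>
      ((q.1, if q.2 then u q.1 else v q.1) : Fin 3 × (Fin m × Bool)))) ⊆ Y := by
    intro p hp
    rw [Finset.mem_image] at hp
    obtain ⟨⟨i, b⟩, -, rfl⟩ := hp
    rcases b with _ | _
    · simpa using hv i
    · simpa using hu i
  have h8 := Finset.card_le_card hsub
  rw [Finset.card_image_of_injective _ hinj] at h8
  simp at h8
  omega

lemma corank_two (hm : 2 ≤ m) (hm0 : 0 < m) :
    (flatsOf (mat (cls m) (cls_surj hm0)) (6 * m - 4)).ncard ≤ 12960 * m ^ 4 := by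
  classical
  set T : Finset (Bool × Finset (Fin 3 × (Fin m × Bool))) :=
    Finset.univ ×ˢ (Finset.univ.filter fun Y => Y.card ≤ 4) with hT
  have h1 : (flatsOf (mat (cls m) (cls_surj hm0)) (6 * m - 4)).ncard ≤ (T : Set (Bool × Finset (Fin 3 × (Fin m × Bool)))).ncard := by
    refine Set.ncard_le_ncard_of_injOn
      (fun F : Set (V m) => (decide ((none : V m) ∈ F),
        (Finset.univ : Finset (Fin 3 × (Fin m × Bool))).filter fun p => (some p : V m) ∉ F))
      ?_ ?_ (Set.toFinite _)
    · intro F hF
      rw [hT]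
      simp only [Finset.coe_product, Set.mem_prod, Finset.mem_coe, Finset.mem_univ, true_and,
        Finset.mem_filter]
      exact missing_le_four hm hm0 hF
    · intro F _ G _ hFG
      simp only [Prod.mk.injEq, decide_eq_decide] at hFG
      ext x
      rcases x with _ | p
      · exact hFG.1
      · have h := congrArg (fun Y => p ∈ Y) hFG.2
        simp only [Finset.mem_filter, Finset.mem_univ, true_and, eq_iff_iff] at h
        tauto
  rw [Set.ncard_coe_finset, hT, Finset.card_product] at h1
  have h2 := card_le_four (P := Fin 3 × (Fin m × Bool)) (by simp; omega)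
  have h3 : Fintype.card (Fin 3 × (Fin m × Bool)) = 6 * m := by
    simp only [Fintype.card_prod, Fintype.card_fin, Fintype.card_bool]
    ring
  rw [h3] at h2
  have h4 : (Finset.univ : Finset Bool).card = 2 := by simp
  rw [h4] at h1
  calc _ ≤ _ := h1
    _ ≤ 2 * (5 * (6 * m) ^ 4) := Nat.mul_le_mul_left _ h2
    _ = 12960 * m ^ 4 := by ring

lemma eRank_ge (hm0 : 0 < m) :
    ((6 * m - 3 : ℕ) : ℕ∞) ≤ (mat (cls m) (cls_surj hm0)).eRank := by
  have h0 : Ind (cls m) ((S1 (fun _ => ⟨0, hm0⟩) : Set (V m))ᶜ) :=
    (ind_insert_of_none (not_full_S1 _) none).subset (Set.subset_insert _ _)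
  rw [← ncard_S1 (fun _ => ⟨0, hm0⟩), ← eRk_of_ind (cls_surj hm0) h0]
  exact Matroid.eRk_le_eRank _ _

end Count

end Pool.Agent.U296.Theta
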